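import Mathlib
import Pool.Agent.Q15.PA.Stm

set_option autoImplicit false

/-!
# Job PA-EX (project PA of helper15): expanding matrices
-/

open MeasureTheory Filter Topology
open scoped Matrix.Norms.Operator NNReal ENNReal

namespace Pool.Agent.Q182.PA

open Pool.Agent.Q15.PA

/-- elements of the spectrum have eigenvectors -/
theorem exists_eig {d : ℕ} {A : Matrix (Fin d) (Fin d) ℂ} {z : ℂ} (hz : z ∈ spectrum ℂ A) :
    ∃ w : Fin d → ℂ, w ≠ 0 ∧ A.mulVec w = z • w := by
  rw [← Matrix.spectrum_toLin', ← Module.End.hasEigenvalue_iff_mem_spectrum] at hz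
  obtain ⟨w, hw⟩ := hz.exists_hasEigenvector
  refine ⟨w, hw.2, ?_⟩
  have := hw.apply_eq_smul
  rwa [Matrix.toLin'_apply] at this

theorem mem_spec {d : ℕ} {A : Matrix (Fin d) (Fin d) ℂ} {z : ℂ} {w : Fin d → ℂ} (hw : w ≠ 0)
    (h : A.mulVec w = z • w) : z ∈ spectrum ℂ A := by
  rw [← Matrix.spectrum_toLin', ← Module.End.hasEigenvalue_iff_mem_spectrum]
  apply Module.End.hasEigenvalue_of_hasEigenvector (x := w)
  refine ⟨?_, hw⟩
  rw [Module.End.mem_eigenspace_iff, Matrix.toLin'_apply]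
  exact h

/-- powers of an element of spectral radius smaller than one tend to zero -/
theorem pow_tendsto {B : Type*} [NormedRing B] [NormedAlgebra ℂ B] [CompleteSpace B]
    {a : B} (h : spectralRadius ℂ a < 1) : Tendsto (fun n : ℕ => ‖a ^ n‖) atTop (𝓝 0) := by
  obtain ⟨s, hs1, hs2⟩ := ENNReal.lt_iff_exists_nnreal_btwn.mp h
  have hs3 : s < 1 := by exact_mod_cast hs2
  have h1 := spectrum.pow_nnnorm_pow_one_div_tendsto_nhds_spectralRadius a
  have h2 : ∀ᶠ n : ℕ in atTop, ‖a ^ n‖ ≤ (s : ℝ) ^ n := by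
    filter_upwards [h1.eventually (gt_mem_nhds hs1), eventually_gt_atTop 0] with n hn hn0
    have hn1 : (0 : ℝ) < n := by exact_mod_cast hn0
    have h3 : (‖a ^ n‖₊ : ℝ≥0∞) ≤ (s : ℝ≥0∞) ^ n := by
      have h4 := ENNReal.rpow_le_rpow hn.le hn1.le
      rw [← ENNReal.rpow_mul, one_div, inv_mul_cancel₀ hn1.ne', ENNReal.rpow_one,
        ENNReal.rpow_natCast] at h4
      exact h4
    have h5 : ‖a ^ n‖₊ ≤ s ^ n := by exact_mod_cast h3
    exact_mod_cast h5
  refine squeeze_zero' (Eventually.of_forall fun n => norm_nonneg _) h2 ?_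
  exact tendsto_pow_atTop_nhds_zero_of_lt_one s.2 (by exact_mod_cast hs3)

theorem t_EX : S_EX := by
  intro d M hM
  set A : Matrix (Fin d) (Fin d) ℂ := M.map (algebraMap ℝ ℂ) with hA
  have hspec : ∀ z ∈ spectrum ℂ A, 1 < ‖z‖ := by
    intro z hz
    obtain ⟨w, hw, h⟩ := exists_eig hz
    exact hM z w hw h
  have hdetA : A.det = (M.det : ℂ) := by
    rw [hA]
    exact (RingHom.map_det (algebraMap ℝ ℂ) M).symm
  have hdet : M.det ≠ 0 := by
    intro h0
    have h1 : A.det = 0 := by rw [hdetA, h0, Complex.ofReal_zero]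
    obtain ⟨w, hw, h2⟩ := Matrix.exists_mulVec_eq_zero_iff.mpr h1
    have h3 := hM 0 w hw (by rw [zero_smul]; exact h2)
    rw [norm_zero] at h3
    linarith
  have hunit : IsUnit M.det := isUnit_iff_ne_zero.mpr hdet
  have hunitA : IsUnit A.det := by
    rw [hdetA]; exact isUnit_iff_ne_zero.mpr (by exact_mod_cast hdet)
  refine ⟨hunit, ?_, ?_⟩
  · intro v
    rcases Nat.eq_zero_or_pos d with rfl | hd
    · have : (fun n : ℕ => (M⁻¹ ^ n).mulVec v) = fun _ => 0 := by
        funext n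
        exact Subsingleton.elim _ _
      rw [this]
      exact tendsto_const_nhds
    have : Nonempty (Fin d) := ⟨⟨0, hd⟩⟩
    have hinv : A⁻¹ = M⁻¹.map (algebraMap ℝ ℂ) := by
      apply Matrix.inv_eq_right_inv
      rw [hA, ← Matrix.map_mul, Matrix.mul_nonsing_inv M hunit]
      exact Matrix.map_one _ (map_zero _) (map_one _)
    have hrad : spectralRadius ℂ A⁻¹ < ((1 : ℝ≥0) : ℝ≥0∞) := by
      apply spectrum.spectralRadius_lt_of_forall_lt
      intro z hz
      obtain ⟨w, hw, h⟩ := exists_eig hz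
      have h1 : w = z • A.mulVec w := by
        have := congrArg (fun u => A.mulVec u) h
        simp only [Matrix.mulVec_mulVec, Matrix.mul_nonsing_inv A hunitA, Matrix.one_mulVec,
          Matrix.mulVec_smul] at this
        exact this
      have hz0 : z ≠ 0 := by
        rintro rfl
        rw [zero_smul] at h1
        exact hw h1
      have h2 : A.mulVec w = z⁻¹ • w := by
        conv_rhs => rw [h1]
        rw [smul_smul, inv_mul_cancel₀ hz0, one_smul]
      have h3 := hM z⁻¹ w hw h2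
      rw [norm_inv] at h3
      have h4 : 0 < ‖z‖ := norm_pos_iff.mpr hz0
      have h5 : ‖z‖ < 1 := by
        by_contra hcon
        push Not at hcon
        have := inv_le_one_of_one_le₀ hcon
        linarith
      exact_mod_cast h5
    have hpow : Tendsto (fun n : ℕ => ‖A⁻¹ ^ n‖) atTop (𝓝 0) :=
      pow_tendsto (by simpa using hrad)
    rw [tendsto_pi_nhds]
    intro i
    rw [Pi.zero_apply, tendsto_zero_iff_norm_tendsto_zero]
    have hb : ∀ n : ℕ, ‖(M⁻¹ ^ n).mulVec v i‖ ≤ ‖A⁻¹ ^ n‖ * ‖(fun j => (v j : ℂ))‖ := by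
      intro n
      have h1 : ((A⁻¹ ^ n).mulVec (fun j => (v j : ℂ))) i = (((M⁻¹ ^ n).mulVec v i : ℝ) : ℂ) := by
        rw [hinv]
        have h2 : (M⁻¹.map (algebraMap ℝ ℂ)) ^ n = (M⁻¹ ^ n).map (algebraMap ℝ ℂ) :=
          (map_pow ((algebraMap ℝ ℂ).mapMatrix) M⁻¹ n).symm
        rw [h2]
        simp [Matrix.mulVec, dotProduct]
      have h3 := norm_le_pi_norm ((A⁻¹ ^ n).mulVec (fun j => (v j : ℂ))) i
      rw [h1, Complex.norm_real] at h3
      exact h3.trans (Matrix.linfty_opNorm_mulVec _ _)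
    refine squeeze_zero (fun n => norm_nonneg _) hb ?_
    simpa using hpow.mul_const (‖(fun j => (v j : ℂ))‖)
  · intro k hk z w hw h
    have h1 : (M ^ k).map (algebraMap ℝ ℂ) = A ^ k :=
      map_pow ((algebraMap ℝ ℂ).mapMatrix) M k
    rw [h1] at h
    have h2 := mem_spec hw h
    rw [spectrum.map_pow_of_pos A hk] at h2
    obtain ⟨y, hy, rfl⟩ := h2
    simp only [norm_pow]
    exact one_lt_pow₀ (hspec y hy) (by omega)

end Pool.Agent.Q182.PA
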