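import Mathlib
import Pool.Agent.Q15.PA.Stm

set_option autoImplicit false

/-!
# Job PA-FE (project PA of helper15): the functional equation
-/

open MeasureTheory Filter Topology

namespace Pool.Agent.Q182.PA

open Pool.Agent.Q15.PA

theorem t_FE : S_FE := by
  intro d G M S hM hA ξ
  classical
  set P : V d → Set (V d) := fun s => (fun x => M⁻¹.mulVec (x + s)) '' G with hP
  have hcont : ∀ s : V d, Continuous (fun x : V d => M⁻¹.mulVec (x + s)) := fun s => by
    fun_prop
  have hPc : ∀ s, IsCompact (P s) := fun s => hA.compact.image (hcont s)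
  have hdet : M.det ≠ 0 := isUnit_iff_ne_zero.mp hM
  set f : V d → ℝ := fun x => Real.exp (ξ ⬝ᵥ M.mulVec x) with hf
  have hfc : Continuous f := by
    apply Real.continuous_exp.comp
    fun_prop
  have h1 : E G (M.transpose.mulVec ξ) = ∫ x in G, f x := by
    unfold E
    congr 1
    funext x
    rw [hf]
    simp only
    congr 1
    rw [Matrix.mulVec_transpose, Matrix.dotProduct_mulVec]
  have hU : G = ⋃ s : S, P (s : V d) := by
    have := hA.eq
    rw [Set.iUnion_subtype]
    exact this
  have h2 : ∫ x in G, f x = ∑ s ∈ S, ∫ x in P s, f x := by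
    conv_lhs => rw [hU]
    rw [integral_iUnion_ae, tsum_fintype, Finset.sum_coe_sort S (fun s => ∫ x in P s, f x)]
    · intro s
      exact (hPc s).measurableSet.nullMeasurableSet
    · intro s s' hs
      exact hA.null s s.2 s' s'.2 (fun h => hs (Subtype.ext h))
    · rw [← hU]
      exact hfc.continuousOn.integrableOn_compact hA.compact
  have h3 : ∀ s : V d, ∫ x in P s, f x = |M.det|⁻¹ * (Real.exp (s ⬝ᵥ ξ) * E G ξ) := by
    intro s
    have hder : ∀ x ∈ G, HasFDerivWithinAt (fun x : V d => M⁻¹.mulVec (x + s))
        (LinearMap.toContinuousLinearMap (Matrix.toLin' M⁻¹)) G x := by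
      intro x _
      have h4 : (fun x : V d => M⁻¹.mulVec (x + s)) =
          fun x => (LinearMap.toContinuousLinearMap (Matrix.toLin' M⁻¹)) x + M⁻¹.mulVec s := by
        funext x
        simp [Matrix.mulVec_add]
      rw [h4]
      exact ((LinearMap.toContinuousLinearMap (Matrix.toLin' M⁻¹)).hasFDerivWithinAt).add_const _
    have hinj : Set.InjOn (fun x : V d => M⁻¹.mulVec (x + s)) G := by
      intro x _ y _ hxy
      have h5 := congrArg (fun u => M.mulVec u) hxy
      simp only [Matrix.mulVec_mulVec, Matrix.mul_nonsing_inv M hM, Matrix.one_mulVec] at h5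
      exact add_right_cancel h5
    rw [hP]
    simp only
    rw [integral_image_eq_integral_abs_det_fderiv_smul volume hA.compact.measurableSet hder hinj f]
    have hd : |(LinearMap.toContinuousLinearMap (Matrix.toLin' M⁻¹)).det| = |M.det|⁻¹ := by
      rw [LinearMap.det_toContinuousLinearMap, LinearMap.det_toLin', Matrix.det_nonsing_inv,
        Ring.inverse_eq_inv', abs_inv]
    simp only [hd, smul_eq_mul]
    rw [integral_const_mul]
    congr 1
    unfold E
    rw [← integral_const_mul]
    congr 1
    funext x
    rw [hf]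
    simp only [Matrix.mulVec_mulVec, Matrix.mul_nonsing_inv M hM, Matrix.one_mulVec]
    rw [dotProduct_add, Real.exp_add, dotProduct_comm ξ s]
    ring
  rw [h1, h2, Finset.sum_congr rfl fun s _ => h3 s, ← Finset.mul_sum, ← mul_assoc,
    mul_inv_cancel₀ (abs_ne_zero.mpr hdet), one_mul, Finset.sum_mul]

end Pool.Agent.Q182.PA
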