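import Mathlib
import Pool.Agent.Q15.PA.Stm

set_option autoImplicit false

/-!
# Job PA-FUB (project PA of helper15): integration over one coordinate
-/

open MeasureTheory Filter Topology

namespace Pool.Agent.Q182.PA

open Pool.Agent.Q15.PA
open scoped Classical

noncomputable section

/-- the constraints of the project -/
abbrev Cn (k : ℕ) := Pool.Agent.Q15.PA.Con k

theorem sum_fm {α : Type} (l : List α) (f : α → List ℝ) :
    (l.flatMap f).sum = (l.map fun a => (f a).sum).sum := by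
  induction l with
  | nil => simp
  | cons a l ih => rw [List.flatMap_cons, List.sum_append, ih, List.map_cons, List.sum_cons]

section split

variable {k : ℕ}

/-- an affine function -/
def aff (p : V k × ℝ) (y : V k) : ℝ := p.1 ⬝ᵥ y + p.2

/-- the constraint `p ≤ q` -/
def cLe (p q : V k × ℝ) : Cn k := ⟨p.1 - q.1, q.2 - p.2, false⟩

/-- the constraint `p < q` -/
def cLt (p q : V k × ℝ) : Cn k := ⟨p.1 - q.1, q.2 - p.2, true⟩

theorem cLe_iff (p q : V k × ℝ) (y : V k) : (cLe p q).holds y ↔ aff p y ≤ aff q y := by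
  unfold Pool.Agent.Q15.PA.Con.holds cLe aff
  simp only [Bool.false_eq_true, if_false, sub_dotProduct]
  constructor <;> intro h <;> linarith

theorem cLt_iff (p q : V k × ℝ) (y : V k) : (cLt p q).holds y ↔ aff p y < aff q y := by
  unfold Pool.Agent.Q15.PA.Con.holds cLt aff
  simp only [if_true, sub_dotProduct]
  constructor <;> intro h <;> linarith

/-- all constraints hold -/
def Hold (cs : List (Cn k)) (y : V k) : Prop := ∀ c ∈ cs, c.holds y

theorem hold_cons (c : Cn k) (cs : List (Cn k)) (y : V k) :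
    Hold (c :: cs) y ↔ c.holds y ∧ Hold cs y := by
  unfold Hold
  simp

theorem hold_append (cs cs' : List (Cn k)) (y : V k) :
    Hold (cs ++ cs') y ↔ Hold cs y ∧ Hold cs' y := by
  unfold Hold
  simp only [List.mem_append]
  constructor
  · intro h
    exact ⟨fun c hc => h c (Or.inl hc), fun c hc => h c (Or.inr hc)⟩
  · rintro ⟨h1, h2⟩ c (hc | hc)
    · exact h1 c hc
    · exact h2 c hc

/-- the cells on which the maximum of the affine functions is one of them -/
def maxS (f0 : V k × ℝ) : List (V k × ℝ) → List (List (Cn k) × (V k × ℝ))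
  | [] => [([], f0)]
  | f :: fs => (maxS f0 fs).flatMap (fun r => [(cLe r.2 f :: r.1, f), (cLt f r.2 :: r.1, r.2)])

/-- the maximum -/
def maxV (f0 : V k × ℝ) (y : V k) : List (V k × ℝ) → ℝ
  | [] => aff f0 y
  | f :: fs => max (aff f y) (maxV f0 y fs)

theorem maxS_sum (f0 : V k × ℝ) (fs : List (V k × ℝ)) (y : V k) : ∀ h : ℝ → ℝ,
    ((maxS f0 fs).map (fun r => if Hold r.1 y then h (aff r.2 y) else 0)).sum =
      h (maxV f0 y fs) := by
  induction fs with
  | nil =>
    intro h
    simp [maxS, maxV, Hold]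
  | cons f fs ih =>
    intro h
    rw [maxS, List.map_flatMap, sum_fm, maxV, ← ih (fun x => h (max (aff f y) x))]
    congr 1
    apply List.map_congr_left
    intro r _
    simp only [List.map_cons, List.map_nil, List.sum_cons, List.sum_nil, add_zero, hold_cons,
      cLe_iff, cLt_iff]
    by_cases h1 : Hold r.1 y
    · rcases le_or_gt (aff r.2 y) (aff f y) with h2 | h2
      · rw [if_pos ⟨h2, h1⟩, if_neg (fun h3 => absurd h3.1 (not_lt.mpr h2)), if_pos h1,
          max_eq_left h2, add_zero]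
      · rw [if_neg (fun h3 => absurd h3.1 (not_le.mpr h2)), if_pos ⟨h2, h1⟩, if_pos h1,
          max_eq_right h2.le, zero_add]
    · rw [if_neg (fun h3 => h1 h3.2), if_neg (fun h3 => h1 h3.2), if_neg h1, add_zero]

/-- the cells on which the minimum of the affine functions is one of them -/
def minS (g0 : V k × ℝ) : List (V k × ℝ) → List (List (Cn k) × (V k × ℝ))
  | [] => [([], g0)]
  | f :: fs => (minS g0 fs).flatMap (fun r => [(cLe f r.2 :: r.1, f), (cLt r.2 f :: r.1, r.2)])

/-- the minimum -/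
def minV (g0 : V k × ℝ) (y : V k) : List (V k × ℝ) → ℝ
  | [] => aff g0 y
  | f :: fs => min (aff f y) (minV g0 y fs)

theorem minS_sum (g0 : V k × ℝ) (fs : List (V k × ℝ)) (y : V k) : ∀ h : ℝ → ℝ,
    ((minS g0 fs).map (fun r => if Hold r.1 y then h (aff r.2 y) else 0)).sum =
      h (minV g0 y fs) := by
  induction fs with
  | nil =>
    intro h
    simp [minS, minV, Hold]
  | cons f fs ih =>
    intro h
    rw [minS, List.map_flatMap, sum_fm, minV, ← ih (fun x => h (min (aff f y) x))]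
    congr 1
    apply List.map_congr_left
    intro r _
    simp only [List.map_cons, List.map_nil, List.sum_cons, List.sum_nil, add_zero, hold_cons,
      cLe_iff, cLt_iff]
    by_cases h1 : Hold r.1 y
    · rcases le_or_gt (aff f y) (aff r.2 y) with h2 | h2
      · rw [if_pos ⟨h2, h1⟩, if_neg (fun h3 => absurd h3.1 (not_lt.mpr h2)), if_pos h1,
          min_eq_left h2, add_zero]
      · rw [if_neg (fun h3 => absurd h3.1 (not_le.mpr h2)), if_pos ⟨h2, h1⟩, if_pos h1,
          min_eq_right h2.le, zero_add]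
    · rw [if_neg (fun h3 => h1 h3.2), if_neg (fun h3 => h1 h3.2), if_neg h1, add_zero]

theorem maxV_le (f0 : V k × ℝ) (y : V k) (fs : List (V k × ℝ)) (t : ℝ) :
    maxV f0 y fs ≤ t ↔ aff f0 y ≤ t ∧ ∀ f ∈ fs, aff f y ≤ t := by
  induction fs with
  | nil => simp [maxV]
  | cons f fs ih =>
    rw [maxV, max_le_iff, ih]
    simp only [List.mem_cons, forall_eq_or_imp]
    tauto

theorem maxV_lt (f0 : V k × ℝ) (y : V k) (fs : List (V k × ℝ)) (t : ℝ) :
    maxV f0 y fs < t ↔ aff f0 y < t ∧ ∀ f ∈ fs, aff f y < t := by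
  induction fs with
  | nil => simp [maxV]
  | cons f fs ih =>
    rw [maxV, max_lt_iff, ih]
    simp only [List.mem_cons, forall_eq_or_imp]
    tauto

theorem le_minV (f0 : V k × ℝ) (y : V k) (fs : List (V k × ℝ)) (t : ℝ) :
    t ≤ minV f0 y fs ↔ t ≤ aff f0 y ∧ ∀ f ∈ fs, t ≤ aff f y := by
  induction fs with
  | nil => simp [minV]
  | cons f fs ih =>
    rw [minV, le_min_iff, ih]
    simp only [List.mem_cons, forall_eq_or_imp]
    tauto

theorem lt_minV (f0 : V k × ℝ) (y : V k) (fs : List (V k × ℝ)) (t : ℝ) :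
    t < minV f0 y fs ↔ t < aff f0 y ∧ ∀ f ∈ fs, t < aff f y := by
  induction fs with
  | nil => simp [minV]
  | cons f fs ih =>
    rw [minV, lt_min_iff, ih]
    simp only [List.mem_cons, forall_eq_or_imp]
    tauto

/-! ### measurability and integrability -/

theorem continuous_dot (a : V k) : Continuous (fun y : V k => a ⬝ᵥ y) := by fun_prop

theorem measurable_holds (c : Cn k) : MeasurableSet {y : V k | c.holds y} := by
  unfold Pool.Agent.Q15.PA.Con.holds
  by_cases h : c.strict = true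
  · simp only [h, if_true]
    exact measurableSet_lt (continuous_dot c.a).measurable measurable_const
  · simp only [h]
    exact measurableSet_le (continuous_dot c.a).measurable measurable_const

theorem measurable_hold (cs : List (Cn k)) : MeasurableSet {y : V k | Hold cs y} := by
  induction cs with
  | nil => simp [Hold]
  | cons c cs ih =>
    simp only [hold_cons]
    exact (measurable_holds c).inter ih

theorem cell_eq (R : ℝ) (cs : List (Cn k)) :
    Cell k R cs = Set.Icc (fun _ => -R) (fun _ => R) ∩ {y : V k | Hold cs y} := by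
  ext y
  unfold Cell Hold
  simp only [Set.mem_ofPred_eq, Set.mem_inter_iff, Set.mem_Icc, Pi.le_def]
  constructor
  · rintro ⟨h1, h2⟩
    exact ⟨⟨fun i => (abs_le.mp (h1 i)).1, fun i => (abs_le.mp (h1 i)).2⟩, h2⟩
  · rintro ⟨⟨h1, h2⟩, h3⟩
    exact ⟨fun i => abs_le.mpr ⟨h1 i, h2 i⟩, h3⟩

theorem measurable_cell (R : ℝ) (cs : List (Cn k)) : MeasurableSet (Cell k R cs) := by
  rw [cell_eq]
  exact measurableSet_Icc.inter (measurable_hold cs)

theorem integrable_cell (R : ℝ) (cs : List (Cn k)) {f : V k → ℝ} (hf : Continuous f) :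
    IntegrableOn f (Cell k R cs) := by
  have h1 : IntegrableOn f (Set.Icc (fun _ : Fin k => -R) (fun _ => R)) :=
    hf.continuousOn.integrableOn_compact isCompact_Icc
  refine h1.mono_set ?_
  rw [cell_eq]
  exact Set.inter_subset_left

theorem list_integral {α : Type} (Q : List α) (F : α → V k → ℝ)
    (hF : ∀ q ∈ Q, Integrable (F q)) :
    Integrable (fun y => (Q.map fun q => F q y).sum) ∧
    (Q.map fun q => ∫ y, F q y).sum = ∫ y, (Q.map fun q => F q y).sum := by
  induction Q with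
  | nil => simp
  | cons q Q ih =>
    obtain ⟨h1, h2⟩ := ih (fun q' hq' => hF q' (List.mem_cons_of_mem _ hq'))
    have h3 := hF q List.mem_cons_self
    refine ⟨?_, ?_⟩
    · simp only [List.map_cons, List.sum_cons]
      exact h3.add h1
    · simp only [List.map_cons, List.sum_cons]
      rw [h2, integral_add h3 h1]

end split

section slices

variable {k : ℕ}

/-- the other coordinates -/
def tl (a : V (k + 1)) : V k := fun i => a i.succ

theorem dot_cons (a : V (k + 1)) (t : ℝ) (y : V k) :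
    a ⬝ᵥ (Fin.cons t y : V (k + 1)) = a 0 * t + tl a ⬝ᵥ y := by
  simp [dotProduct, Fin.sum_univ_succ, tl]

theorem cons_dot_cons (s t : ℝ) (x y : V k) :
    (Fin.cons s x : V (k + 1)) ⬝ᵥ (Fin.cons t y : V (k + 1)) = s * t + x ⬝ᵥ y := by
  simp [dotProduct, Fin.sum_univ_succ]

/-- the bound for the first coordinate -/
def affOf (c : Cn (k + 1)) : V k × ℝ := ((-(c.a 0)⁻¹) • tl c.a, c.b * (c.a 0)⁻¹)

/-- a constraint without the first coordinate -/
def tailCon (c : Cn (k + 1)) : Cn k := ⟨tl c.a, c.b, c.strict⟩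

theorem aff_affOf (c : Cn (k + 1)) (y : V k) :
    aff (affOf c) y = (c.b - tl c.a ⬝ᵥ y) * (c.a 0)⁻¹ := by
  unfold aff affOf
  simp only [smul_dotProduct, smul_eq_mul]
  ring

theorem holds_cons_le {c : Cn (k + 1)} {t : ℝ} {y : V k}
    (h : c.holds (Fin.cons t y : V (k + 1))) : c.a 0 * t + tl c.a ⬝ᵥ y ≤ c.b := by
  unfold Pool.Agent.Q15.PA.Con.holds at h
  rw [dot_cons] at h
  split_ifs at h
  · exact h.le
  · exact h

theorem holds_cons_of_lt {c : Cn (k + 1)} {t : ℝ} {y : V k}
    (h : c.a 0 * t + tl c.a ⬝ᵥ y < c.b) : c.holds (Fin.cons t y : V (k + 1)) := by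
  unfold Pool.Agent.Q15.PA.Con.holds
  rw [dot_cons]
  split_ifs
  · exact h
  · exact h.le

theorem low_le {c : Cn (k + 1)} (hc : c.a 0 < 0) {t : ℝ} {y : V k}
    (h : c.holds (Fin.cons t y : V (k + 1))) : aff (affOf c) y ≤ t := by
  have h1 := holds_cons_le h
  rw [aff_affOf, ← div_eq_mul_inv, div_le_iff_of_neg hc]
  linarith

theorem low_lt {c : Cn (k + 1)} (hc : c.a 0 < 0) {t : ℝ} {y : V k}
    (h : aff (affOf c) y < t) : c.holds (Fin.cons t y : V (k + 1)) := by
  apply holds_cons_of_lt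
  rw [aff_affOf, ← div_eq_mul_inv, div_lt_iff_of_neg hc] at h
  linarith

theorem up_le {c : Cn (k + 1)} (hc : 0 < c.a 0) {t : ℝ} {y : V k}
    (h : c.holds (Fin.cons t y : V (k + 1))) : t ≤ aff (affOf c) y := by
  have h1 := holds_cons_le h
  rw [aff_affOf, ← div_eq_mul_inv, le_div_iff₀ hc]
  linarith

theorem up_lt {c : Cn (k + 1)} (hc : 0 < c.a 0) {t : ℝ} {y : V k}
    (h : t < aff (affOf c) y) : c.holds (Fin.cons t y : V (k + 1)) := by
  apply holds_cons_of_lt
  rw [aff_affOf, ← div_eq_mul_inv, lt_div_iff₀ hc] at h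
  linarith

theorem flat_iff {c : Cn (k + 1)} (hc : c.a 0 = 0) {t : ℝ} {y : V k} :
    c.holds (Fin.cons t y : V (k + 1)) ↔ (tailCon c).holds y := by
  unfold Pool.Agent.Q15.PA.Con.holds tailCon
  rw [dot_cons, hc, zero_mul, zero_add]

/-- the lower bounds -/
def lows (cs : List (Cn (k + 1))) : List (V k × ℝ) :=
  (cs.filter (fun c => decide (c.a 0 < 0))).map affOf

/-- the upper bounds -/
def ups (cs : List (Cn (k + 1))) : List (V k × ℝ) :=
  (cs.filter (fun c => decide (0 < c.a 0))).map affOf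

/-- the constraints without the first coordinate -/
def flats (cs : List (Cn (k + 1))) : List (Cn k) :=
  (cs.filter (fun c => decide (c.a 0 = 0))).map tailCon

/-- the maximal lower bound -/
def FF (R : ℝ) (cs : List (Cn (k + 1))) (y : V k) : ℝ := maxV (0, -R) y (lows cs)

/-- the minimal upper bound -/
def GG (R : ℝ) (cs : List (Cn (k + 1))) (y : V k) : ℝ := minV (0, R) y (ups cs)

theorem aff_const (R : ℝ) (y : V k) : aff (0, R) y = R := by
  unfold aff
  simp

theorem mem_cell_cons {R : ℝ} {cs : List (Cn (k + 1))} {t : ℝ} {y : V k} :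
    (Fin.cons t y : V (k + 1)) ∈ Cell (k + 1) R cs ↔
      |t| ≤ R ∧ (∀ i, |y i| ≤ R) ∧ ∀ c ∈ cs, c.holds (Fin.cons t y : V (k + 1)) := by
  unfold Cell
  simp only [Set.mem_ofPred_eq, Fin.forall_fin_succ, Fin.cons_zero, Fin.cons_succ, and_assoc]

theorem slice_sub {R : ℝ} {cs : List (Cn (k + 1))} {t : ℝ} {y : V k}
    (h : (Fin.cons t y : V (k + 1)) ∈ Cell (k + 1) R cs) :
    (∀ i, |y i| ≤ R) ∧ Hold (flats cs) y ∧ FF R cs y ≤ t ∧ t ≤ GG R cs y := by
  obtain ⟨h1, h2, h3⟩ := mem_cell_cons.mp h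
  refine ⟨h2, ?_, ?_, ?_⟩
  · intro c hc
    obtain ⟨c', hc', rfl⟩ := List.mem_map.mp hc
    obtain ⟨h4, h5⟩ := List.mem_filter.mp hc'
    exact (flat_iff (of_decide_eq_true h5)).mp (h3 c' h4)
  · unfold FF
    rw [maxV_le, aff_const]
    refine ⟨(abs_le.mp h1).1, fun f hf => ?_⟩
    obtain ⟨c', hc', rfl⟩ := List.mem_map.mp hf
    obtain ⟨h4, h5⟩ := List.mem_filter.mp hc'
    exact low_le (of_decide_eq_true h5) (h3 c' h4)
  · unfold GG
    rw [le_minV, aff_const]
    refine ⟨(abs_le.mp h1).2, fun f hf => ?_⟩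
    obtain ⟨c', hc', rfl⟩ := List.mem_map.mp hf
    obtain ⟨h4, h5⟩ := List.mem_filter.mp hc'
    exact up_le (of_decide_eq_true h5) (h3 c' h4)

theorem sub_slice {R : ℝ} {cs : List (Cn (k + 1))} {t : ℝ} {y : V k}
    (h1 : ∀ i, |y i| ≤ R) (h2 : Hold (flats cs) y) (h3 : FF R cs y < t) (h4 : t < GG R cs y) :
    (Fin.cons t y : V (k + 1)) ∈ Cell (k + 1) R cs := by
  unfold FF at h3
  unfold GG at h4
  rw [maxV_lt, aff_const] at h3
  rw [lt_minV, aff_const] at h4
  rw [mem_cell_cons]
  refine ⟨abs_le.mpr ⟨h3.1.le, h4.1.le⟩, h1, fun c hc => ?_⟩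
  rcases lt_trichotomy (c.a 0) 0 with h5 | h5 | h5
  · apply low_lt h5
    exact h3.2 _ (List.mem_map.mpr ⟨c, List.mem_filter.mpr ⟨hc, decide_eq_true h5⟩, rfl⟩)
  · rw [flat_iff h5]
    exact h2 _ (List.mem_map.mpr ⟨c, List.mem_filter.mpr ⟨hc, decide_eq_true h5⟩, rfl⟩)
  · apply up_lt h5
    exact h4.2 _ (List.mem_map.mpr ⟨c, List.mem_filter.mpr ⟨hc, decide_eq_true h5⟩, rfl⟩)

/-- the value of the inner integral -/
def HH (R : ℝ) (cs : List (Cn (k + 1))) (l : V k) (η : ℝ) (y : V k) (a b : ℝ) : ℝ :=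
  if (∀ i, |y i| ≤ R) ∧ Hold (flats cs) y ∧ a ≤ b then
    Real.exp (l ⬝ᵥ y) * (Real.exp (η * b) - Real.exp (η * a)) else 0

theorem inner (R : ℝ) (cs : List (Cn (k + 1))) (l : V k) (η : ℝ) (y : V k) :
    η * ∫ t : ℝ, (Cell (k + 1) R cs).indicator
      (fun x => Real.exp ((Fin.cons η l : V (k + 1)) ⬝ᵥ x)) (Fin.cons t y : V (k + 1)) =
    HH R cs l η y (FF R cs y) (GG R cs y) := by
  set S : Set ℝ := {t | (Fin.cons t y : V (k + 1)) ∈ Cell (k + 1) R cs} with hS
  have hcons : Continuous (fun t : ℝ => (Fin.cons t y : V (k + 1))) := by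
    apply continuous_pi
    intro i
    refine Fin.cases ?_ (fun j => ?_) i
    · simp only [Fin.cons_zero]
      exact continuous_id
    · simpa using continuous_const
  have hSm : MeasurableSet S := hcons.measurable (measurable_cell R cs)
  have h1 : ∫ t : ℝ, (Cell (k + 1) R cs).indicator
      (fun x => Real.exp ((Fin.cons η l : V (k + 1)) ⬝ᵥ x)) (Fin.cons t y : V (k + 1)) =
      ∫ t in S, Real.exp (η * t + l ⬝ᵥ y) := by
    rw [← integral_indicator hSm]
    congr 1
    funext t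
    by_cases ht : t ∈ S
    · rw [Set.indicator_of_mem ht, Set.indicator_of_mem (show (Fin.cons t y : V (k + 1)) ∈
        Cell (k + 1) R cs from ht), cons_dot_cons]
    · rw [Set.indicator_of_notMem ht, Set.indicator_of_notMem (show (Fin.cons t y : V (k + 1)) ∉
        Cell (k + 1) R cs from ht)]
  rw [h1]
  unfold HH
  by_cases hcase : (∀ i, |y i| ≤ R) ∧ Hold (flats cs) y ∧ FF R cs y ≤ GG R cs y
  · rw [if_pos hcase]
    obtain ⟨h2, h3, h4⟩ := hcase
    have h5 : S =ᵐ[volume] Set.Ioc (FF R cs y) (GG R cs y) := by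
      have e1 : Set.Ioo (FF R cs y) (GG R cs y) ⊆ S := fun t ht => sub_slice h2 h3 ht.1 ht.2
      have e2 : S ⊆ Set.Icc (FF R cs y) (GG R cs y) := fun t ht =>
        ⟨(slice_sub ht).2.2.1, (slice_sub ht).2.2.2⟩
      have e3 : S =ᵐ[volume] Set.Icc (FF R cs y) (GG R cs y) := by
        refine (LE.le.eventuallyLE e2).antisymm ?_
        exact (Ioo_ae_eq_Icc.symm.le).trans (LE.le.eventuallyLE e1)
      exact e3.trans Ioc_ae_eq_Icc.symm
    rw [setIntegral_congr_set h5, ← intervalIntegral.integral_of_le h4,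
      ← intervalIntegral.integral_const_mul]
    have h6 : ∀ t ∈ Set.uIcc (FF R cs y) (GG R cs y),
        HasDerivAt (fun t : ℝ => Real.exp (η * t + l ⬝ᵥ y))
          (η * Real.exp (η * t + l ⬝ᵥ y)) t := by
      intro t _
      have e1 : HasDerivAt (fun t : ℝ => η * t + l ⬝ᵥ y) η t := by
        simpa using ((hasDerivAt_id t).const_mul η).add_const (l ⬝ᵥ y)
      have e2 := e1.exp
      rwa [mul_comm] at e2
    rw [intervalIntegral.integral_eq_sub_of_hasDerivAt h6
      ((by fun_prop : Continuous fun t : ℝ => η * Real.exp (η * t + l ⬝ᵥ y)).intervalIntegrable _ _)]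
    rw [Real.exp_add, Real.exp_add]
    ring
  · rw [if_neg hcase]
    have h2 : S = ∅ := by
      apply Set.eq_empty_of_forall_notMem
      intro t ht
      obtain ⟨e1, e2, e3, e4⟩ := slice_sub ht
      exact hcase ⟨e1, e2, e3.trans e4⟩
    rw [h2, Measure.restrict_empty, integral_zero_measure, mul_zero]

/-- the list of the cells -/
def QQ (R : ℝ) (cs : List (Cn (k + 1))) : List (List (Cn k) × (V k × ℝ) × (V k × ℝ)) :=
  (maxS (0, -R) (lows cs)).flatMap (fun r => (minS (0, R) (ups cs)).map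
    (fun s => (cLe r.2 s.2 :: (flats cs ++ (r.1 ++ s.1)), s.2, r.2)))

theorem sum_QQ (R : ℝ) (cs : List (Cn (k + 1))) (l : V k) (η : ℝ) (y : V k) :
    ((QQ R cs).map fun q => (Cell k R q.1).indicator (fun y => Real.exp (l ⬝ᵥ y) *
      (Real.exp (η * (q.2.1.1 ⬝ᵥ y + q.2.1.2)) - Real.exp (η * (q.2.2.1 ⬝ᵥ y + q.2.2.2)))) y).sum =
    HH R cs l η y (FF R cs y) (GG R cs y) := by
  unfold QQ
  rw [List.map_flatMap, sum_fm]
  simp only [List.map_map]
  have h1 : ∀ r ∈ maxS (0, -R) (lows cs), (List.map ((fun q : List (Cn k) × (V k × ℝ) × (V k × ℝ) =>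
      (Cell k R q.1).indicator (fun y => Real.exp (l ⬝ᵥ y) *
      (Real.exp (η * (q.2.1.1 ⬝ᵥ y + q.2.1.2)) - Real.exp (η * (q.2.2.1 ⬝ᵥ y + q.2.2.2)))) y) ∘
      fun s => (cLe r.2 s.2 :: (flats cs ++ (r.1 ++ s.1)), s.2, r.2))
      (minS (0, R) (ups cs))).sum =
      if Hold r.1 y then HH R cs l η y (aff r.2 y) (GG R cs y) else 0 := by
    intro r _
    have h2 : (if Hold r.1 y then HH R cs l η y (aff r.2 y) (GG R cs y) else 0) =
        ((minS (0, R) (ups cs)).map (fun s => if Hold s.1 y then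
          (fun b => if Hold r.1 y then HH R cs l η y (aff r.2 y) b else 0) (aff s.2 y)
            else 0)).sum := by
      exact (minS_sum (0, R) (ups cs) y
        (fun b => if Hold r.1 y then HH R cs l η y (aff r.2 y) b else 0)).symm
    rw [h2]
    congr 1
    apply List.map_congr_left
    intro s _
    simp only [Function.comp_apply]
    have h3 : y ∈ Cell k R (cLe r.2 s.2 :: (flats cs ++ (r.1 ++ s.1))) ↔
        (∀ i, |y i| ≤ R) ∧ aff r.2 y ≤ aff s.2 y ∧ Hold (flats cs) y ∧ Hold r.1 y ∧ Hold s.1 y := by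
      rw [← cLe_iff, ← hold_append, ← hold_append, ← hold_cons]
      rfl
    unfold HH
    by_cases hr : Hold r.1 y
    · by_cases hs : Hold s.1 y
      · by_cases hc : (∀ i, |y i| ≤ R) ∧ Hold (flats cs) y ∧ aff r.2 y ≤ aff s.2 y
        · rw [Set.indicator_of_mem (h3.mpr ⟨hc.1, hc.2.2, hc.2.1, hr, hs⟩), if_pos hs, if_pos hr,
            if_pos hc]
          rfl
        · rw [Set.indicator_of_notMem (fun h4 => hc ⟨(h3.mp h4).1, (h3.mp h4).2.2.1,
            (h3.mp h4).2.1⟩), if_pos hs, if_pos hr, if_neg hc]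
      · rw [Set.indicator_of_notMem (fun h4 => hs (h3.mp h4).2.2.2.2), if_neg hs]
    · rw [Set.indicator_of_notMem (fun h4 => hr (h3.mp h4).2.2.2.1)]
      simp only [hr, if_false, ite_self]
  rw [List.map_congr_left h1]
  exact maxS_sum (0, -R) (lows cs) y (fun a => HH R cs l η y a (GG R cs y))

end slices

theorem cons_eq {k : ℕ} (p : ℝ × (Fin k → ℝ)) :
    (MeasurableEquiv.piFinSuccAbove (fun _ : Fin (k + 1) => ℝ) 0).symm p =
      (Fin.cons p.1 p.2 : V (k + 1)) := by
  obtain ⟨t, y⟩ := p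
  change Fin.insertNth (α := fun _ : Fin (k + 1) => ℝ) 0 t y = _
  rw [Fin.insertNth_zero']

theorem t_FUB : S_FUB := by
  intro k R cs
  refine ⟨QQ R cs, fun l η => ?_⟩
  set g : V (k + 1) → ℝ := fun x => Real.exp ((Fin.cons η l : V (k + 1)) ⬝ᵥ x) with hg
  have hgc : Continuous g := Real.continuous_exp.comp (continuous_dot _)
  have hgi : Integrable ((Cell (k + 1) R cs).indicator g) :=
    (integrable_indicator_iff (measurable_cell R cs)).mpr (integrable_cell R cs hgc)
  -- the left side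
  have hmp := (volume_preserving_piFinSuccAbove (fun _ : Fin (k + 1) => ℝ) 0).symm
  have hL1 : ∫ x in Cell (k + 1) R cs, g x = ∫ p : ℝ × V k,
      (Cell (k + 1) R cs).indicator g (Fin.cons p.1 p.2 : V (k + 1)) := by
    rw [← integral_indicator (measurable_cell R cs), ← hmp.integral_comp']
    congr 1
    funext p
    congr 1
    exact cons_eq p
  have hint : Integrable (fun p : ℝ × V k =>
      (Cell (k + 1) R cs).indicator g (Fin.cons p.1 p.2 : V (k + 1)))
      ((volume : Measure ℝ).prod (volume : Measure (V k))) := by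
    have := (hmp.integrable_comp_emb (MeasurableEquiv.measurableEmbedding _)).mpr hgi
    refine this.congr (Filter.Eventually.of_forall fun p => ?_)
    simp only [Function.comp_apply]
    congr 1
    exact cons_eq p
  have hL2 : ∫ p : ℝ × V k, (Cell (k + 1) R cs).indicator g (Fin.cons p.1 p.2 : V (k + 1)) =
      ∫ y : V k, ∫ t : ℝ, (Cell (k + 1) R cs).indicator g (Fin.cons t y : V (k + 1)) :=
    integral_prod_symm _ hint
  rw [hL1, hL2, ← integral_const_mul]
  simp only [hg, inner]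
  -- the right side
  have hR := list_integral (QQ R cs) (fun q => (Cell k R q.1).indicator (fun y =>
    Real.exp (l ⬝ᵥ y) * (Real.exp (η * (q.2.1.1 ⬝ᵥ y + q.2.1.2)) -
      Real.exp (η * (q.2.2.1 ⬝ᵥ y + q.2.2.2))))) (fun q _ =>
        (integrable_indicator_iff (measurable_cell R q.1)).mpr (integrable_cell R q.1 (by fun_prop)))
  have hR2 : ∀ q ∈ QQ R cs, (∫ y in Cell k R q.1, Real.exp (l ⬝ᵥ y) *
      (Real.exp (η * (q.2.1.1 ⬝ᵥ y + q.2.1.2)) - Real.exp (η * (q.2.2.1 ⬝ᵥ y + q.2.2.2)))) =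
      ∫ y, (Cell k R q.1).indicator (fun y =>
    Real.exp (l ⬝ᵥ y) * (Real.exp (η * (q.2.1.1 ⬝ᵥ y + q.2.1.2)) -
      Real.exp (η * (q.2.2.1 ⬝ᵥ y + q.2.2.2)))) y := fun q _ =>
    (integral_indicator (measurable_cell R q.1)).symm
  rw [List.map_congr_left hR2, hR.2]
  simp only [sum_QQ]

end

end Pool.Agent.Q182.PA
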