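import Mathlib
import Pool.Agent.Q15.PA.Stm

set_option autoImplicit false

/-!
# Job PA-TAY (project PA of helper15): Taylor expansion at `0`
-/

open MeasureTheory Filter Topology

namespace Pool.Agent.Q182.PA.Tay

open Pool.Agent.Q15.PA

theorem continuous_E {d : ℕ} {G : Set (V d)} (hG : IsCompact G) : Continuous (E G) := by
  unfold E
  exact continuous_parametric_integral_of_continuous
    (by fun_prop : Continuous (Function.uncurry fun ξ x : V d => Real.exp (ξ ⬝ᵥ x))) hG

theorem continuous_evc {d : ℕ} (N : V d →₀ ℝ) : Continuous (evc N) := by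
  unfold evc Finsupp.sum
  fun_prop

theorem E_zero {d : ℕ} (G : Set (V d)) : E G 0 = (volume G).toReal := by
  unfold E
  simp [Measure.real]

theorem E_pos {d : ℕ} {G : Set (V d)} (hG : IsCompact G) (hv : volume G ≠ 0) (ξ : V d) :
    0 < E G ξ := by
  unfold E
  have : NeZero (volume.restrict G) := ⟨fun h => hv (Measure.restrict_eq_zero.mp h)⟩
  apply integral_exp_pos
  exact ((by fun_prop : Continuous fun x : V d => Real.exp (ξ ⬝ᵥ x)).continuousOn).integrableOn_compact hG

theorem sum_fact (d : ℕ) :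
    ∑ k ∈ Finset.range (d + 1), ((-1 : ℝ) ^ (d - k) * (d.choose k : ℝ)) * (k : ℝ) ^ d =
      (d.factorial : ℝ) := by
  have h1 := congrFun (fwdDiff_iter_eq_factorial (R := ℝ) (n := d)) 0
  rw [fwdDiff_iter_eq_sum_shift] at h1
  rw [Pi.natCast_apply] at h1
  rw [← h1]
  refine Finset.sum_congr rfl fun k _ => ?_
  simp only [zsmul_eq_mul, nsmul_eq_mul, mul_one, zero_add]
  push_cast
  ring

theorem binom (d : ℕ) (x : ℝ) :
    ∑ k ∈ Finset.range (d + 1), ((-1 : ℝ) ^ (d - k) * (d.choose k : ℝ)) * x ^ k = (x - 1) ^ d := by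
  rw [sub_eq_add_neg, add_pow]
  refine Finset.sum_congr rfl fun k _ => ?_
  ring

theorem key (d : ℕ) {ι : Type} (s : Finset ι) (c a : ι → ℝ) (h : ℝ → ℝ) (hc : Continuous h)
    (H : ∀ t : ℝ, t ≠ 0 → ∑ i ∈ s, c i * Real.exp (t * a i) = t ^ d * h t) :
    ∑ i ∈ s, c i * a i ^ d = d.factorial * h 0 := by
  have H0 : ∀ t : ℝ, ∑ i ∈ s, c i * Real.exp (t * a i) = t ^ d * h t := by
    have h1 : (fun t : ℝ => ∑ i ∈ s, c i * Real.exp (t * a i)) = fun t => t ^ d * h t := by
      apply Continuous.ext_on (dense_compl_singleton (0 : ℝ)) (by fun_prop) (by fun_prop)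
      intro t ht
      exact H t ht
    exact fun t => congrFun h1 t
  have h2 : ∀ t : ℝ, t ≠ 0 → ∑ i ∈ s, c i * ((Real.exp (t * a i) - 1) * t⁻¹) ^ d =
      ∑ k ∈ Finset.range (d + 1), ((-1 : ℝ) ^ (d - k) * (d.choose k : ℝ)) * (k : ℝ) ^ d *
        h (k * t) := by
    intro t ht
    have e1 : ∑ i ∈ s, c i * (Real.exp (t * a i) - 1) ^ d =
        ∑ k ∈ Finset.range (d + 1), ((-1 : ℝ) ^ (d - k) * (d.choose k : ℝ)) *
          ((k * t) ^ d * h (k * t)) := by
      simp only [← H0, ← binom, Finset.mul_sum]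
      rw [Finset.sum_comm]
      refine Finset.sum_congr rfl fun k _ => Finset.sum_congr rfl fun i _ => ?_
      rw [← Real.exp_nat_mul]
      ring_nf
    have e2 : ∀ i ∈ s, c i * ((Real.exp (t * a i) - 1) * t⁻¹) ^ d =
        (c i * (Real.exp (t * a i) - 1) ^ d) * (t⁻¹) ^ d := by
      intro i _
      rw [mul_pow]
      ring
    rw [Finset.sum_congr rfl e2, ← Finset.sum_mul, e1, Finset.sum_mul]
    refine Finset.sum_congr rfl fun k _ => ?_
    have e3 : t ^ d * (t⁻¹) ^ d = 1 := by
      rw [← mul_pow, mul_inv_cancel₀ ht, one_pow]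
    calc ((-1 : ℝ) ^ (d - k) * (d.choose k : ℝ)) * ((k * t) ^ d * h (k * t)) * (t⁻¹) ^ d
        = ((-1 : ℝ) ^ (d - k) * (d.choose k : ℝ)) * (k : ℝ) ^ d * h (k * t) *
          (t ^ d * (t⁻¹) ^ d) := by
          rw [mul_pow]
          ring
      _ = _ := by rw [e3, mul_one]
  have l1 : Tendsto (fun t : ℝ => ∑ i ∈ s, c i * ((Real.exp (t * a i) - 1) * t⁻¹) ^ d)
      (𝓝[≠] 0) (𝓝 (∑ i ∈ s, c i * a i ^ d)) := by
    apply tendsto_finsetSum
    intro i _
    apply Tendsto.const_mul
    apply Tendsto.pow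
    have e1 : HasDerivAt (fun t : ℝ => Real.exp (t * a i)) (a i) 0 := by
      have := ((hasDerivAt_id (0 : ℝ)).mul_const (a i)).exp
      simpa using this
    have e2 := hasDerivAt_iff_tendsto_slope_zero.mp e1
    refine e2.congr fun t => ?_
    simp only [zero_add, zero_mul, Real.exp_zero, smul_eq_mul]
    ring
  have l2 : Tendsto (fun t : ℝ => ∑ k ∈ Finset.range (d + 1),
      ((-1 : ℝ) ^ (d - k) * (d.choose k : ℝ)) * (k : ℝ) ^ d * h (k * t))
      (𝓝[≠] 0) (𝓝 (d.factorial * h 0)) := by
    have e1 : Continuous (fun t : ℝ => ∑ k ∈ Finset.range (d + 1),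
      ((-1 : ℝ) ^ (d - k) * (d.choose k : ℝ)) * (k : ℝ) ^ d * h (k * t)) := by fun_prop
    have e2 := (e1.tendsto 0).mono_left (nhdsWithin_le_nhds (s := {0}ᶜ))
    simp only [mul_zero] at e2
    rwa [← Finset.sum_mul, sum_fact] at e2
  have l3 := l2.congr' (f₂ := fun t : ℝ => ∑ i ∈ s, c i * ((Real.exp (t * a i) - 1) * t⁻¹) ^ d) (by
    filter_upwards [self_mem_nhdsWithin] with t ht
    exact (h2 t ht).symm)
  exact tendsto_nhds_unique l1 l3

theorem dens {d : ℕ} (q : MvPolynomial (Fin d) ℝ) (hq : q ≠ 0) (F : V d → ℝ) (hF : Continuous F)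
    (h : ∀ ξ, MvPolynomial.eval ξ q ≠ 0 → F ξ = 0) (ξ : V d) : F ξ = 0 := by
  obtain ⟨ξ₁, h1⟩ : ∃ ξ₁ : V d, MvPolynomial.eval ξ₁ q ≠ 0 := by
    by_contra h2
    push Not at h2
    exact hq (MvPolynomial.funext fun x => by rw [h2 x, map_zero])
  set P : Polynomial ℝ := MvPolynomial.aeval
    (fun i => Polynomial.C (ξ i) + Polynomial.C (ξ₁ i - ξ i) * Polynomial.X) q with hP
  have hev : ∀ t : ℝ, P.eval t = MvPolynomial.eval (ξ + t • (ξ₁ - ξ)) q := by
    intro t
    have e1 : ∀ q : MvPolynomial (Fin d) ℝ, (MvPolynomial.aeval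
        (fun i => Polynomial.C (ξ i) + Polynomial.C (ξ₁ i - ξ i) * Polynomial.X) q).eval t =
        MvPolynomial.eval (ξ + t • (ξ₁ - ξ)) q := by
      intro q
      induction q using MvPolynomial.induction_on with
      | C a => simp
      | add p q hp hq => rw [map_add, Polynomial.eval_add, hp, hq, map_add]
      | mul_X p i hp =>
        rw [map_mul, Polynomial.eval_mul, hp, map_mul, MvPolynomial.aeval_X, MvPolynomial.eval_X]
        simp only [Polynomial.eval_add, Polynomial.eval_C, Polynomial.eval_mul, Polynomial.eval_X,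
          Pi.add_apply, Pi.smul_apply, Pi.sub_apply, smul_eq_mul]
        ring
    exact e1 q
  have hP0 : P ≠ 0 := by
    intro h0
    apply h1
    have := hev 1
    rw [h0, Polynomial.eval_zero, one_smul, add_sub_cancel] at this
    exact this.symm
  have hfin : {t : ℝ | P.eval t = 0}.Finite := by
    refine (P.roots.toFinset.finite_toSet).subset fun t ht => ?_
    simpa [hP0] using ht
  have hd : Dense ({t : ℝ | P.eval t = 0}ᶜ) := hfin.countable.dense_compl ℝ
  have h3 : (fun t : ℝ => F (ξ + t • (ξ₁ - ξ))) = fun _ => 0 := by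
    apply Continuous.ext_on hd (by fun_prop) continuous_const
    intro t ht
    apply h
    rw [← hev]
    exact ht
  have h4 := congrFun h3 0
  simpa using h4

theorem hom_eval {d j : ℕ} {q : MvPolynomial (Fin d) ℝ} (hq : q.IsHomogeneous j) (t : ℝ) (ξ : V d) :
    MvPolynomial.eval (t • ξ) q = t ^ j * MvPolynomial.eval ξ q := by
  rw [MvPolynomial.eval_eq', MvPolynomial.eval_eq', Finset.mul_sum]
  refine Finset.sum_congr rfl fun m hm => ?_
  have h1 : ∑ i, m i = j := by
    have := hq (MvPolynomial.mem_support_iff.mp hm)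
    rw [← this, Finsupp.weight_apply, Finsupp.sum_fintype]
    · simp
    · simp
  simp only [Pi.smul_apply, smul_eq_mul, mul_pow]
  rw [Finset.prod_mul_distrib, Finset.prod_pow_eq_pow_sum, h1]
  ring

theorem prodL_smul {d : ℕ} (L : List (V d)) (t : ℝ) (ξ : V d) :
    prodL L (t • ξ) = t ^ L.length * prodL L ξ := by
  unfold prodL
  induction L with
  | nil => simp
  | cons a L ih =>
    rw [List.map_cons, List.prod_cons, List.map_cons, List.prod_cons, List.length_cons, ih,
      dotProduct_smul, smul_eq_mul]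
    ring

theorem evc_smul {d : ℕ} (N : V d →₀ ℝ) (t : ℝ) (ξ : V d) :
    evc N (t • ξ) = ∑ v ∈ N.support, N v * Real.exp (t * (v ⬝ᵥ ξ)) := by
  unfold evc Finsupp.sum
  simp only [dotProduct_smul, smul_eq_mul]

end Pool.Agent.Q182.PA.Tay

namespace Pool.Agent.Q182.PA

open Pool.Agent.Q15.PA Tay

theorem t_TAY : S_TAY := by
  intro d G L j q N hG hv hL hlen hq hE
  set m : MvPolynomial (Fin d) ℝ := MvPolynomial.C ((d.factorial : ℝ)⁻¹) *
    ∑ v ∈ N.support, MvPolynomial.C (N v) * lin v ^ d with hm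
  have hq0 : q ≠ 0 := by
    intro h0
    apply prod_lin_ne L hL
    apply MvPolynomial.funext
    intro ξ
    rw [eval_prod_lin, map_zero]
    have h1 := hE ξ
    rw [h0, map_zero, zero_mul] at h1
    exact (mul_eq_zero.mp h1).resolve_right (E_pos hG hv ξ).ne'
  have hfac : (d.factorial : ℝ) ≠ 0 := by positivity
  have hmev : ∀ ξ, MvPolynomial.eval ξ m =
      (d.factorial : ℝ)⁻¹ * ∑ v ∈ N.support, N v * (v ⬝ᵥ ξ) ^ d := by
    intro ξ
    rw [hm, map_mul, MvPolynomial.eval_C, map_sum]
    simp only [map_mul, MvPolynomial.eval_C, map_pow, eval_lin]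
  have hmh : m.IsHomogeneous d := by
    have h3 : (∑ v ∈ N.support, MvPolynomial.C (N v) * lin v ^ d).IsHomogeneous d := by
      apply MvPolynomial.IsHomogeneous.sum
      intro v _
      have h4 := (MvPolynomial.isHomogeneous_C (Fin d) (N v)).mul ((lin_hom v).pow d)
      simpa using h4
    have h4 := (MvPolynomial.isHomogeneous_C (Fin d) ((d.factorial : ℝ)⁻¹)).mul h3
    simpa using h4
  clear_value m
  have h1 : ∀ ξ, MvPolynomial.eval ξ q ≠ 0 →
      MvPolynomial.eval ξ q * MvPolynomial.eval ξ m = (volume G).toReal * prodL L ξ := by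
    intro ξ hξ
    have h2 := key d N.support (fun v => N v) (fun v => v ⬝ᵥ ξ)
      (fun t => prodL L ξ * E G (t • ξ) / MvPolynomial.eval ξ q)
      (by
        have := continuous_E hG
        fun_prop) (by
        intro t ht
        rw [← evc_smul]
        have e1 := hE (t • ξ)
        rw [prodL_smul, hom_eval hq, hlen, pow_add] at e1
        have e2 : t ^ j ≠ 0 := pow_ne_zero _ ht
        field_simp
        apply mul_left_cancel₀ e2
        linarith)
    rw [hmev, h2, zero_smul, E_zero]
    field_simp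
  have h2 : q * m = MvPolynomial.C (volume G).toReal * (L.map lin).prod := by
    have h3 : q * (q * m - MvPolynomial.C (volume G).toReal * (L.map lin).prod) = 0 := by
      apply MvPolynomial.funext
      intro ξ
      rw [map_mul, map_sub, map_mul, map_mul, MvPolynomial.eval_C, eval_prod_lin, map_zero]
      by_cases h4 : MvPolynomial.eval ξ q = 0
      · rw [h4, zero_mul]
      · rw [h1 ξ h4, sub_self, mul_zero]
    exact sub_eq_zero.mp ((mul_eq_zero.mp h3).resolve_left hq0)
  refine ⟨m, hmh, h2, ?_⟩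
  · intro ξ
    have h3 := dens q hq0 (fun ξ => MvPolynomial.eval ξ m * E G ξ - (volume G).toReal * evc N ξ)
      (by
        have e1 := continuous_E hG
        have e2 := continuous_evc N
        have e3 := MvPolynomial.continuous_eval m
        fun_prop) (by
        intro ξ hξ
        have e1 := h1 ξ hξ
        have e2 := hE ξ
        apply (mul_eq_zero.mp (?_ : MvPolynomial.eval ξ q *
          (MvPolynomial.eval ξ m * E G ξ - (volume G).toReal * evc N ξ) = 0)).resolve_left hξ
        linear_combination E G ξ * e1 + (volume G).toReal * e2) ξ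
    exact sub_eq_zero.mp h3

end Pool.Agent.Q182.PA
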