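import Mathlib
import Pool.Agent.Q15.PA.Stm
import Pool.Agent.Q182.PA.TAY

set_option autoImplicit false

/-!
# Job PA-M1 (project PA of helper15): the vertex polynomial
-/

open MeasureTheory Filter Topology

namespace Pool.Agent.Q182.PA.MOne

open Pool.Agent.Q15.PA

variable {d : ℕ}

theorem dot_transpose (M : Matrix (Fin d) (Fin d) ℝ) (a ξ : V d) :
    a ⬝ᵥ M.transpose.mulVec ξ = M.mulVec a ⬝ᵥ ξ := by
  rw [Matrix.dotProduct_mulVec, Matrix.vecMul_transpose]

theorem prodL_transpose (M : Matrix (Fin d) (Fin d) ℝ) (L : List (V d)) (ξ : V d) :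
    prodL L (M.transpose.mulVec ξ) = prodL (L.map M.mulVec) ξ := by
  unfold prodL
  rw [List.map_map]
  congr 1
  apply List.map_congr_left
  intro a _
  simp only [Function.comp_apply, dot_transpose]

theorem ev_add (p q : V d →₀ MvPolynomial (Fin d) ℝ) (ξ : V d) :
    ev (p + q) ξ = ev p ξ + ev q ξ := by
  unfold ev
  apply Finsupp.sum_add_index'
  · intro v
    simp
  · intro v a b
    rw [map_add, add_mul]

theorem ev_zero (ξ : V d) : ev (0 : V d →₀ MvPolynomial (Fin d) ℝ) ξ = 0 := by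
  unfold ev
  exact Finsupp.sum_zero_index

theorem ev_neg (p : V d →₀ MvPolynomial (Fin d) ℝ) (ξ : V d) : ev (-p) ξ = -ev p ξ := by
  have h := ev_add p (-p) ξ
  rw [add_neg_cancel, ev_zero] at h
  linarith

theorem ev_sum {ι : Type} (s : Finset ι) (f : ι → V d →₀ MvPolynomial (Fin d) ℝ) (ξ : V d) :
    ev (∑ i ∈ s, f i) ξ = ∑ i ∈ s, ev (f i) ξ := by
  classical
  induction s using Finset.induction_on with
  | empty => simp [ev_zero]
  | insert a s ha ih => rw [Finset.sum_insert ha, Finset.sum_insert ha, ev_add, ih]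

/-- substitution `ξ ↦ Mᵀ ξ` -/
noncomputable def tau (M : Matrix (Fin d) (Fin d) ℝ) :
    MvPolynomial (Fin d) ℝ →ₗ[ℝ] MvPolynomial (Fin d) ℝ :=
  (MvPolynomial.aeval (fun i => lin (fun j => M j i))).toLinearMap

theorem eval_tau (M : Matrix (Fin d) (Fin d) ℝ) (q : MvPolynomial (Fin d) ℝ) (ξ : V d) :
    MvPolynomial.eval ξ (tau M q) = MvPolynomial.eval (M.transpose.mulVec ξ) q := by
  unfold tau
  rw [AlgHom.toLinearMap_apply]
  induction q using MvPolynomial.induction_on with
  | C a => simp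
  | add p q hp hq => rw [map_add, map_add, hp, hq, map_add]
  | mul_X p i hp =>
    rw [map_mul, map_mul, hp, map_mul, MvPolynomial.aeval_X, MvPolynomial.eval_X, eval_lin]
    rfl

theorem tau_inj {M : Matrix (Fin d) (Fin d) ℝ} (hM : IsUnit M.det) :
    Function.Injective (tau M) := by
  intro p q h
  apply MvPolynomial.funext
  intro ξ
  have h1 : IsUnit M.transpose.det := by rwa [Matrix.det_transpose]
  have h2 := eval_tau M p ((M.transpose)⁻¹.mulVec ξ)
  have h3 := eval_tau M q ((M.transpose)⁻¹.mulVec ξ)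
  rw [Matrix.mulVec_mulVec, Matrix.mul_nonsing_inv _ h1, Matrix.one_mulVec] at h2 h3
  rw [← h2, ← h3, h]

theorem mulVec_inj {M : Matrix (Fin d) (Fin d) ℝ} (hM : IsUnit M.det) :
    Function.Injective M.mulVec := by
  intro v w h
  have h2 := congrArg M⁻¹.mulVec h
  rwa [Matrix.mulVec_mulVec, Matrix.mulVec_mulVec, Matrix.nonsing_inv_mul _ hM,
    Matrix.one_mulVec, Matrix.one_mulVec] at h2

theorem ev_shift (p : V d →₀ MvPolynomial (Fin d) ℝ)
    (A : MvPolynomial (Fin d) ℝ →ₗ[ℝ] MvPolynomial (Fin d) ℝ) (f : V d → V d) (ξ : V d) :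
    ev (Finsupp.mapDomain f (Finsupp.mapRange A (map_zero A) p)) ξ =
      p.sum fun v q => MvPolynomial.eval ξ (A q) * Real.exp (f v ⬝ᵥ ξ) := by
  unfold ev
  rw [Finsupp.sum_mapDomain_index, Finsupp.sum_mapRange_index]
  · intro v
    simp
  · intro v
    simp
  · intro v a b
    rw [map_add, add_mul]

end Pool.Agent.Q182.PA.MOne

namespace Pool.Agent.Q182.PA

open Pool.Agent.Q15.PA MOne

theorem t_M1 : S_M1 := by
  intro hEX hFE hCL hRAT hFUB hPOLY hLI hGAP hTAY hFAC hIND d G M S hA hU hv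
  obtain ⟨L, j, p, hL, hlen, hhom, hE⟩ := hPOLY hCL hRAT hFUB d G hU
  have hdet : IsUnit M.det := (hEX d M hA.expanding).1
  have hFE' := hFE d G M S hdet hA
  have hMinj := mulVec_inj hdet
  have hdet0 : |M.det| ≠ 0 := abs_ne_zero.mpr hdet.ne_zero
  have hL' : ∀ a ∈ L.map M.mulVec, a ≠ 0 := by
    intro a ha
    obtain ⟨b, hb, rfl⟩ := List.mem_map.mp ha
    intro h0
    apply hL b hb
    apply hMinj
    rw [h0, Matrix.mulVec_zero]
  have hP0 := prod_lin_ne L hL
  have hP0' := prod_lin_ne _ hL'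
  -- the linear maps
  set A : MvPolynomial (Fin d) ℝ →ₗ[ℝ] MvPolynomial (Fin d) ℝ :=
    LinearMap.mulLeft ℝ ((L.map M.mulVec).map lin).prod with hAdef
  set B : MvPolynomial (Fin d) ℝ →ₗ[ℝ] MvPolynomial (Fin d) ℝ :=
    (LinearMap.mulLeft ℝ (MvPolynomial.C |M.det| * (L.map lin).prod)).comp (tau M) with hBdef
  have hAinj : Function.Injective A := by
    intro q q' h
    exact mul_left_cancel₀ hP0' h
  have hC0 : (MvPolynomial.C |M.det| : MvPolynomial (Fin d) ℝ) ≠ 0 := by
    rwa [Ne, MvPolynomial.C_eq_zero]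
  have hBinj : Function.Injective B := by
    intro q q' h
    exact tau_inj hdet (mul_left_cancel₀ (mul_ne_zero hC0 hP0) h)
  have hAev : ∀ q ξ, MvPolynomial.eval ξ (A q) = prodL (L.map M.mulVec) ξ * MvPolynomial.eval ξ q := by
    intro q ξ
    rw [hAdef, LinearMap.mulLeft_apply, map_mul, eval_prod_lin]
  have hBev : ∀ q ξ, MvPolynomial.eval ξ (B q) =
      |M.det| * prodL L ξ * MvPolynomial.eval (M.transpose.mulVec ξ) q := by
    intro q ξ
    rw [hBdef, LinearMap.comp_apply, LinearMap.mulLeft_apply, map_mul, map_mul,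
      MvPolynomial.eval_C, eval_prod_lin, eval_tau]
  clear_value A B
  -- the identity
  set D : V d →₀ MvPolynomial (Fin d) ℝ :=
    (∑ s ∈ S, Finsupp.mapDomain (fun v => v + s) (Finsupp.mapRange A (map_zero A) p)) +
      -(Finsupp.mapDomain M.mulVec (Finsupp.mapRange B (map_zero B) p)) with hD
  have hevD : ∀ ξ, ev D ξ = 0 := by
    intro ξ
    rw [hD, ev_add, ev_neg, ev_sum, ev_shift]
    have e1 : ∀ s ∈ S, ev (Finsupp.mapDomain (fun v => v + s)
        (Finsupp.mapRange A (map_zero A) p)) ξ =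
        prodL (L.map M.mulVec) ξ * (Real.exp (s ⬝ᵥ ξ) * ev p ξ) := by
      intro s _
      rw [ev_shift]
      unfold ev Finsupp.sum
      rw [Finset.mul_sum, Finset.mul_sum]
      refine Finset.sum_congr rfl fun v _ => ?_
      beta_reduce
      rw [hAev, add_dotProduct, Real.exp_add]
      ring
    have e2 : (p.sum fun v q => MvPolynomial.eval ξ (B q) * Real.exp (M.mulVec v ⬝ᵥ ξ)) =
        |M.det| * prodL L ξ * ev p (M.transpose.mulVec ξ) := by
      unfold ev Finsupp.sum
      rw [Finset.mul_sum]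
      refine Finset.sum_congr rfl fun v _ => ?_
      beta_reduce
      rw [hBev, dot_transpose]
      ring
    rw [Finset.sum_congr rfl e1, e2, ← Finset.mul_sum, ← Finset.sum_mul, ← hE, ← hE,
      prodL_transpose]
    have e3 := hFE' ξ
    linear_combination (prodL (L.map M.mulVec) ξ * prodL L ξ) * e3
  have hD0 := hLI d D hevD
  have hAB : ∀ w, A (∑ s ∈ S, p (w - s)) = B (p (M⁻¹.mulVec w)) := by
    intro w
    have h1 := DFunLike.congr_fun hD0 w
    rw [hD, Finsupp.add_apply, Finsupp.neg_apply, Finsupp.finsetSum_apply, Finsupp.zero_apply] at h1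
    have h2 : ∀ s ∈ S, (Finsupp.mapDomain (fun v => v + s)
        (Finsupp.mapRange A (map_zero A) p)) w = A (p (w - s)) := by
      intro s _
      have h3 := Finsupp.mapDomain_apply (f := fun v : V d => v + s) (add_left_injective s)
        (Finsupp.mapRange A (map_zero A) p) (w - s)
      simp only [sub_add_cancel] at h3
      rw [h3, Finsupp.mapRange_apply]
    have h3 : (Finsupp.mapDomain M.mulVec (Finsupp.mapRange B (map_zero B) p)) w =
        B (p (M⁻¹.mulVec w)) := by
      have h4 := Finsupp.mapDomain_apply hMinj (Finsupp.mapRange B (map_zero B) p)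
        (M⁻¹.mulVec w)
      rw [Matrix.mulVec_mulVec, Matrix.mul_nonsing_inv _ hdet, Matrix.one_mulVec] at h4
      rw [h4, Finsupp.mapRange_apply]
    rw [Finset.sum_congr rfl h2, h3] at h1
    rw [map_sum]
    exact eq_of_sub_eq_zero (by rw [sub_eq_add_neg]; exact h1)
  have hSne : S.Nonempty := by
    obtain ⟨x, hx⟩ := hA.nonempty
    rw [hA.eq] at hx
    simp only [Set.mem_iUnion] at hx
    obtain ⟨s, hs, _⟩ := hx
    exact ⟨s, hs⟩
  obtain ⟨q, N, hN⟩ := hGAP hEX d M S p A B hA.expanding hSne hAinj hBinj hAB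
  have hp0 : ∃ v, p v ≠ 0 := by
    by_contra h
    push Not at h
    have h1 : p = 0 := Finsupp.ext h
    apply hP0
    apply MvPolynomial.funext
    intro ξ
    rw [eval_prod_lin, map_zero]
    have h2 := hE ξ
    rw [h1, ev_zero] at h2
    exact (mul_eq_zero.mp h2).resolve_right (Tay.E_pos hA.compact hv ξ).ne'
  have hqhom : q.IsHomogeneous j := by
    obtain ⟨v, hv0⟩ := hp0
    have h1 : N v ≠ 0 := by
      intro h0
      apply hv0
      rw [hN, h0, zero_smul]
    have h2 : q = MvPolynomial.C (N v)⁻¹ * p v := by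
      rw [hN, MvPolynomial.smul_eq_C_mul, ← mul_assoc, ← MvPolynomial.C_mul, inv_mul_cancel₀ h1,
        MvPolynomial.C_1, one_mul]
    rw [h2]
    have h3 := (MvPolynomial.isHomogeneous_C (Fin d) (N v)⁻¹).mul (hhom v)
    rwa [zero_add] at h3
  have hE2 : ∀ ξ, prodL L ξ * E G ξ = MvPolynomial.eval ξ q * evc N ξ := by
    intro ξ
    rw [hE]
    unfold ev evc
    rw [Finsupp.sum_of_support_subset p (s := N.support) _ _ _ ]
    · unfold Finsupp.sum
      rw [Finset.mul_sum]
      refine Finset.sum_congr rfl fun v _ => ?_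
      beta_reduce
      rw [hN, MvPolynomial.smul_eval]
      ring
    · intro v hvs
      rw [Finsupp.mem_support_iff] at hvs ⊢
      intro h0
      apply hvs
      rw [hN, h0, zero_smul]
    · intro v _
      simp
  obtain ⟨m, hmh, hqm, hmE⟩ := hTAY d G L j q N hA.compact hv hL hlen hqhom hE2
  have hvol : (volume G).toReal ≠ 0 :=
    ENNReal.toReal_ne_zero.mpr ⟨hv, hA.compact.measure_lt_top.ne⟩
  obtain ⟨u, b, hb, hu, hmu⟩ := hFAC d d L q m (volume G).toReal hvol hL hmh hqm
  have hfin : ∀ ξ, (∏ i, u i ⬝ᵥ ξ) * E G ξ = evc (((volume G).toReal / b) • N) ξ := by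
    intro ξ
    have h1 := hmE ξ
    rw [hmu, map_mul, MvPolynomial.eval_C, map_prod] at h1
    simp only [eval_lin] at h1
    have h2 : evc (((volume G).toReal / b) • N) ξ = ((volume G).toReal / b) * evc N ξ := by
      unfold evc
      rw [Finsupp.sum_smul_index (fun v => by simp)]
      unfold Finsupp.sum
      rw [Finset.mul_sum]
      refine Finset.sum_congr rfl fun v _ => ?_
      ring
    rw [h2, div_mul_eq_mul_div, eq_div_iff hb, ← h1]
    ring
  exact ⟨u, ((volume G).toReal / b) • N,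
    hIND d G u _ hA.compact hv hu hfin, hfin⟩

end Pool.Agent.Q182.PA
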